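import Pool.Agent.X227.LG.Defs

set_option autoImplicit false

/-! Two equivalent strong Maltsev conditions, one with and one without the local-global
property. -/

namespace Pool.Agent.Results.MP_b44554_al.ConstantPair

open Pool.Agent.X227.LG Tm

universe u

/-- The identity `c(x) ≈ c(y)`, with `c` unary. -/
def ids1 : List (Tm (m := 1) (fun _ => 1) 2 × Tm (m := 1) (fun _ => 1) 2) :=
  [(app 0 fun _ => var 0, app 0 fun _ => var 1)]

/-- The condition `c(x) ≈ c(y)`: there is a constant unary term operation. -/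
def sigma1 : Cond where
  m := 1
  ar := fun _ => 1
  n := 2
  ids := ids1
  ar_pos := fun _ => Nat.one_pos

/-- The identities `f(x,y) ≈ f(y,x)`, `f(g(x,y),h(x,y)) ≈ g(x,x)`, `f(h(x,y),g(x,y)) ≈ g(y,y)`,
with `f, g, h` binary. -/
def ids2 : List (Tm (m := 3) (fun _ => 2) 2 × Tm (m := 3) (fun _ => 2) 2) :=
  [(app 0 ![var 0, var 1], app 0 ![var 1, var 0]),
    (app 0 ![app 1 ![var 0, var 1], app 2 ![var 0, var 1]], app 1 ![var 0, var 0]),
    (app 0 ![app 2 ![var 0, var 1], app 1 ![var 0, var 1]], app 1 ![var 1, var 1])]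

/-- The condition `f(x,y) ≈ f(y,x)`, `f(g(x,y),h(x,y)) ≈ g(x,x)`, `f(h(x,y),g(x,y)) ≈ g(y,y)`, with
`f, g, h` binary. -/
def sigma2 : Cond where
  m := 3
  ar := fun _ => 2
  n := 2
  ids := ids2
  ar_pos := fun _ => Nat.two_pos

theorem ids1_flat : ∀ e ∈ ids1, e.1.IsFlat ∧ e.2.IsFlat := by
  intro e he
  obtain rfl := List.mem_singleton.1 he
  exact ⟨fun j => ⟨0, rfl⟩, fun j => ⟨1, rfl⟩⟩

theorem sigma1_linear : sigma1.IsLinear := ids1_flat

variable {A : Type u}

theorem eval2 (I : Fin 3 → (Fin 2 → A) → A) (x : Fin 2 → A) (f : Fin 3)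
    (s t : Tm (m := 3) (fun _ => 2) 2) :
    (app f ![s, t]).eval I x = I f ![s.eval I x, t.eval I x] := by
  simp only [Tm.eval]
  congr 1
  ext j
  fin_cases j <;> rfl

theorem evalv {m : ℕ} {ar : Fin m → ℕ} {n : ℕ} (I : ∀ f, (Fin (ar f) → A) → A) (x : Fin n → A)
    (i : Fin n) : (var i : Tm ar n).eval I x = x i := rfl

theorem holds2 (I : Fin 3 → (Fin 2 → A) → A) (x : Fin 2 → A) :
    (∀ e ∈ ids2, e.1.eval I x = e.2.eval I x) ↔
      I 0 ![x 0, x 1] = I 0 ![x 1, x 0] ∧
      I 0 ![I 1 ![x 0, x 1], I 2 ![x 0, x 1]] = I 1 ![x 0, x 0] ∧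
      I 0 ![I 2 ![x 0, x 1], I 1 ![x 0, x 1]] = I 1 ![x 1, x 1] := by
  simp only [ids2, List.forall_mem_cons, List.not_mem_nil, false_imp_iff, implies_true, and_true,
    eval2, evalv]

theorem holds1 (I : Fin 1 → (Fin 1 → A) → A) (x : Fin 2 → A) :
    (∀ e ∈ ids1, e.1.eval I x = e.2.eval I x) ↔
      I 0 (fun _ => x 0) = I 0 (fun _ => x 1) := by
  simp only [ids1, List.forall_mem_cons, List.not_mem_nil, false_imp_iff, implies_true, and_true,
    Tm.eval]

theorem satOn1 (𝔸 : Alg A) (F : Set (Fin 2 → A)) :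
    𝔸.SatOn sigma1 F ↔ ∃ c, 𝔸.Clo 1 c ∧ ∀ x ∈ F, c (fun _ => x 0) = c (fun _ => x 1) := by
  constructor
  · rintro ⟨I, hI, h⟩
    exact ⟨I (0 : Fin 1), hI (0 : Fin 1), fun x hx => (holds1 I x).1 (h x hx)⟩
  · rintro ⟨c, hc, h⟩
    exact ⟨fun _ => c, fun _ => hc, fun x hx => (holds1 (fun _ => c) x).2 (h x hx)⟩

theorem satOn2 (𝔸 : Alg A) (F : Set (Fin 2 → A)) :
    𝔸.SatOn sigma2 F ↔ ∃ I : Fin 3 → (Fin 2 → A) → A, (∀ i, 𝔸.Clo 2 (I i)) ∧ ∀ x ∈ F,
      I 0 ![x 0, x 1] = I 0 ![x 1, x 0] ∧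
      I 0 ![I 1 ![x 0, x 1], I 2 ![x 0, x 1]] = I 1 ![x 0, x 0] ∧
      I 0 ![I 2 ![x 0, x 1], I 1 ![x 0, x 1]] = I 1 ![x 1, x 1] := by
  constructor
  · rintro ⟨I, hI, h⟩
    exact ⟨I, hI, fun x hx => (holds2 I x).1 (h x hx)⟩
  · rintro ⟨I, hI, h⟩
    exact ⟨I, hI, fun x hx => (holds2 I x).2 (h x hx)⟩

/-- The two conditions are equivalent. -/
theorem equivalent : Cond.Equivalent.{u} sigma1 sigma2 := by
  intro A _ 𝔸
  refine (satOn1 𝔸 Set.univ).trans (Iff.trans ?_ (satOn2 𝔸 Set.univ).symm)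
  constructor
  · rintro ⟨c, hc, h⟩
    have h' : ∀ a b : A, c (fun _ => a) = c (fun _ => b) := fun a b => by
      simpa using h ![a, b] trivial
    have hc2 : 𝔸.Clo 2 fun x => c fun _ => x 0 := hc.subst fun _ => Alg.Clo.proj 0
    exact ⟨fun _ => fun x => c fun _ => x 0, fun _ => hc2, fun x _ => ⟨h' _ _, h' _ _, h' _ _⟩⟩
  · rintro ⟨I, hI, h⟩
    have hc : 𝔸.Clo 1 fun x => I 1 fun _ => x 0 := (hI 1).subst fun _ => Alg.Clo.proj 0
    refine ⟨_, hc, fun x _ => ?_⟩
    obtain ⟨-, h2, h3⟩ := h x trivial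
    have h1 := (h ![I 1 ![x 0, x 1], I 2 ![x 0, x 1]] trivial).1
    simp only [Matrix.cons_val_zero, Matrix.cons_val_one] at h1
    have e : ∀ a : A, (fun _ : Fin 2 => a) = ![a, a] := fun a => by
      ext j; fin_cases j <;> rfl
    change I 1 (fun _ => x 0) = I 1 (fun _ => x 1)
    rw [e, e, ← h2, ← h3, h1]

/-- `sigma1` has the `1`-local-global property. -/
theorem sigma1_lg : Cond.LG.{u} sigma1 := by
  classical
  refine ⟨1, le_rfl, fun A _ 𝔸 _ hloc F => ?_⟩
  refine (satOn1 𝔸 _).2 ?_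
  have key : ∀ F : Finset (Fin 2 → A),
      ∃ c, 𝔸.Clo 1 c ∧ ∀ x ∈ F, c (fun _ => x 0) = c (fun _ => x 1) := by
    intro F
    induction F using Finset.induction_on with
    | empty => exact ⟨_, Alg.Clo.proj 0, by simp⟩
    | insert x F _ ih =>
      obtain ⟨c, hc, h⟩ := ih
      obtain ⟨c', hc', h'⟩ := (satOn1 𝔸 _).1
        (hloc {![c fun _ => x 0, c fun _ => x 1]} (Finset.card_singleton _))
      refine ⟨fun y => c' fun _ => c y, hc'.subst fun _ => hc, ?_⟩
      intro y hy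
      rw [Finset.mem_insert] at hy
      rcases hy with rfl | hy
      · have := h' ![c fun _ => y 0, c fun _ => y 1]
          (Finset.mem_coe.2 (Finset.mem_singleton_self _))
        simpa using this
      · simp only [h y hy]
  exact key F

/-- The algebra with all idempotent operations. -/
def idem (A : Type u) : Alg A where
  ops := fun l => {f | ∀ a, f (fun _ => a) = a}

theorem idem_clo {l : ℕ} {f : (Fin l → A) → A} (hf : (idem A).Clo l f) (a : A) :
    f (fun _ => a) = a := by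
  induction hf with
  | proj i => rfl
  | comp r f hf g _ ih =>
    simp only [ih]
    exact hf a

theorem clo_idem {l : ℕ} {f : (Fin l → A) → A} (hf : ∀ a, f (fun _ => a) = a) :
    (idem A).Clo l f :=
  Alg.Clo.comp l f (show f ∈ (idem A).ops l from hf) (fun j x => x j) fun j => Alg.Clo.proj j

/-- Locally the second condition can be satisfied by idempotent operations. -/
theorem local2 (k : ℕ) (A : Type u) [Fintype A] (hA : 3 * k + 1 ≤ Fintype.card A)
    (F : Finset (Fin 2 → A)) (hF : F.card = k) :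
    (idem A).SatOn sigma2 (F : Set (Fin 2 → A)) := by
  classical
  -- the coordinates of the tuples in `F`
  let X : Finset A := F.biUnion fun x => {x 0, x 1}
  have hX : X.card ≤ 2 * k := by
    refine Finset.card_biUnion_le.trans ?_
    refine (Finset.sum_le_card_nsmul _ _ 2 fun x _ => Finset.card_le_two).trans ?_
    rw [hF, smul_eq_mul, mul_comm]
  have hmem : ∀ x ∈ F, x 0 ∈ X ∧ x 1 ∈ X := fun x hx =>
    ⟨Finset.mem_biUnion.2 ⟨x, hx, by simp⟩, Finset.mem_biUnion.2 ⟨x, hx, by simp⟩⟩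
  obtain ⟨φ⟩ : Nonempty (Option F ↪ {a : A // a ∉ X}) := by
    refine Function.Embedding.nonempty_of_card_le ?_
    rw [Fintype.card_option, Fintype.card_coe, hF, Fintype.card_subtype_compl, Fintype.card_coe]
    omega
  have hne : Nonempty (Fin 2 → A) := ⟨fun _ => (φ none).1⟩
  let e : A := (φ none).1
  have he : e ∉ X := (φ none).2
  let ψ : A → Fin 2 → A := fun a =>
    if h : ∃ x : F, (φ (some x)).1 = a then h.choose.1 else fun _ => a
  have hψ : ∀ x : F, ψ (φ (some x)).1 = x.1 := by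
    intro x
    have h : ∃ y : F, (φ (some y)).1 = (φ (some x)).1 := ⟨x, rfl⟩
    have h2 := h.choose_spec
    have h3 : h.choose = x := by
      have := φ.injective (Subtype.ext h2)
      exact Option.some_injective _ this
    simp only [ψ, dif_pos h, h3]
  let g : (Fin 2 → A) → A := fun x => if x ∈ F ∧ x 0 ≠ x 1 then e else x 0
  let h : (Fin 2 → A) → A := fun x => if hx : x ∈ F ∧ x 0 ≠ x 1 then (φ (some ⟨x, hx.1⟩)).1 else x 0
  let f : (Fin 2 → A) → A := fun x => if x 0 = x 1 then x 0 else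
    if x 0 = e then ψ (x 1) 0 else if x 1 = e then ψ (x 0) 1 else e
  refine (satOn2 _ _).2 ?_
  have hg : (idem A).Clo 2 g := clo_idem fun a => by simp [g]
  have hh : (idem A).Clo 2 h := clo_idem fun a => by simp [h]
  have hf : (idem A).Clo 2 f := clo_idem fun a => by simp [f]
  refine ⟨![f, g, h], ?_, ?_⟩
  · intro i
    fin_cases i
    exacts [hf, hg, hh]
  · intro x hx
    have hx' : ![x 0, x 1] = x := by
      ext j; fin_cases j <;> rfl
    simp only [Matrix.cons_val_zero, Matrix.cons_val_one, Matrix.cons_val, hx']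
    by_cases hxx : x 0 = x 1
    · have hg0 : g x = x 0 := if_neg (fun hh => hh.2 hxx)
      have hh0 : h x = x 0 := dif_neg (fun hh => hh.2 hxx)
      refine ⟨?_, ?_, ?_⟩
      · rw [show ![x 1, x 0] = x by rw [← hxx]; nth_rewrite 2 [hxx]; exact hx']
      · simp [f, hg0, hh0, g]
      · simp [f, hg0, hh0, g, hxx]
    · have hxF : x ∈ F := hx
      have hg0 : g x = e := if_pos ⟨hxF, hxx⟩
      have hh0 : h x = (φ (some ⟨x, hxF⟩)).1 := dif_pos ⟨hxF, hxx⟩
      have hne : e ≠ (φ (some ⟨x, hxF⟩)).1 := fun hh => by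
        have := φ.injective (Subtype.ext hh)
        exact absurd this (by simp)
      have e0 : x 0 ≠ e := fun hh => he (hh ▸ (hmem x hxF).1)
      have e1 : x 1 ≠ e := fun hh => he (hh ▸ (hmem x hxF).2)
      refine ⟨?_, ?_, ?_⟩
      · simp only [f]
        simp [hxx, Ne.symm hxx, e0, e1]
      · have : f ![e, (φ (some ⟨x, hxF⟩)).1] = x 0 := by
          simp only [f]
          simp [hne, hψ]
        rw [hg0, hh0, this]
        simp [g]
      · have : f ![(φ (some ⟨x, hxF⟩)).1, e] = x 1 := by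
          simp only [f]
          simp [hne.symm, hψ]
        rw [hg0, hh0, this]
        simp [g]

/-- `sigma2` does not have the local-global property. -/
theorem sigma2_not_lg : ¬ Cond.LG.{u} sigma2 := by
  classical
  rintro ⟨k, hk, h⟩
  let A : Type u := ULift.{u} (Fin (3 * k + 1))
  have hcard : Fintype.card A = 3 * k + 1 := by simp [A]
  have hne : Nonempty A := ⟨⟨0⟩⟩
  have h1 : (k : Cardinal.{u}) ≤ Cardinal.mk (Fin sigma2.n → A) := by
    have : Fintype.card (Fin 2 → A) = (3 * k + 1) ^ 2 := by simp [hcard]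
    change (k : Cardinal.{u}) ≤ Cardinal.mk (Fin 2 → A)
    rw [Cardinal.mk_fintype, this]
    exact_mod_cast (by nlinarith : k ≤ (3 * k + 1) ^ 2)
  have h2 := h A (idem A) h1 (fun F hF => local2 k A hcard.ge F hF) Finset.univ
  obtain ⟨I, hI, h3⟩ := (satOn2 _ _).1 h2
  have hid : ∀ i (a : A), I i ![a, a] = a := fun i a => by
    have := idem_clo (hI i) a
    rwa [show (fun _ : Fin 2 => a) = ![a, a] by ext j; fin_cases j <;> rfl] at this
  let a : A := ⟨0⟩
  let b : A := ⟨⟨1, by omega⟩⟩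
  have hab : a ≠ b := by
    intro hab
    have := congrArg (fun x : A => x.down.1) hab
    simp [a, b] at this
  obtain ⟨-, h4, h5⟩ := h3 ![a, b] (Finset.mem_coe.2 (Finset.mem_univ _))
  have h6 := (h3 ![I 1 ![a, b], I 2 ![a, b]] (Finset.mem_coe.2 (Finset.mem_univ _))).1
  simp only [Matrix.cons_val_zero, Matrix.cons_val_one, hid] at h4 h5 h6
  exact hab (h4.symm.trans (h6.trans h5))

/-- The strong Maltsev conditions `sigma1` (linear) and `sigma2` are equivalent; the first has the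
local-global property, the second does not. -/
theorem result : Cond.Equivalent.{u} sigma1 sigma2 ∧ Cond.LG.{u} sigma1 ∧ ¬ Cond.LG.{u} sigma2 ∧
    sigma1.IsLinear :=
  ⟨equivalent, sigma1_lg, sigma2_not_lg, sigma1_linear⟩

end Pool.Agent.Results.MP_b44554_al.ConstantPair
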