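import Pool.Agent.X227.LG.Main3

set_option autoImplicit false

/-! Two linear strong Maltsev conditions, equivalent over finite algebras, one with and one without
the local-global property. -/

namespace Pool.Agent.Results.MP_b44554_al.LinearFinitePair

open Pool.Agent.X227.LG

universe u

theorem flat_of_minor {m : ℕ} {ar : Fin m → ℕ} {n : ℕ} {t : Tm ar n} (h : t.IsMinor) :
    t.IsFlat := by
  obtain ⟨f, σ, rfl⟩ := h
  exact fun j => ⟨σ j, rfl⟩

/-- The linear conditions `sigmaT` and `sigma3` are equivalent over finite algebras; the first has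
the local-global property, the second does not. -/
theorem result : sigmaT.IsLinear ∧ sigma3.IsLinear ∧ Cond.FinEquivalent.{u} sigmaT sigma3 ∧
    Cond.LG.{u} sigmaT ∧ ¬ Cond.LG.{u} sigma3 :=
  ⟨fun e he => ⟨flat_of_minor (idsT_heightOne e he).1, flat_of_minor (idsT_heightOne e he).2⟩,
    fun e he => ⟨flat_of_minor (ids3_heightOne e he).1, flat_of_minor (ids3_heightOne e he).2⟩,
    finEquivalent, sigmaT_lg, sigma3_not_lg⟩

end Pool.Agent.Results.MP_b44554_al.LinearFinitePair
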