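import Mathlib

set_option autoImplicit false

namespace Pool.Agent.Results.MP_b44554_al.LocalGlobal

/-- Terms over operation symbols `S` with arities `ar`, in the variables `x_0, …, x_{n-1}`. -/
inductive Term {S : Type} (ar : S → ℕ) (n : ℕ) : Type
  | var : Fin n → Term ar n
  | op : (s : S) → (Fin (ar s) → Term ar n) → Term ar n

/-- A strong Maltsev condition: finitely many operation symbols, finitely many variables and a
finite set of identities between terms. -/
structure Cond where
  /-- operation symbols -/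
  S : Type
  finS : Finite S
  /-- arities -/
  ar : S → ℕ
  /-- number of variables -/
  n : ℕ
  /-- identities -/
  ids : Set (Term ar n × Term ar n)
  finIds : ids.Finite

/-- The clone of an algebra on `A`: a set of finitary operations that contains the projections
and is closed under composition. -/
structure Clone (A : Type) where
  /-- the operations of each arity -/
  ops : ∀ n : ℕ, Set ((Fin n → A) → A)
  proj : ∀ (n : ℕ) (i : Fin n), (fun x => x i) ∈ ops n
  comp : ∀ (n m : ℕ) (f : (Fin n → A) → A) (g : Fin n → (Fin m → A) → A), f ∈ ops n →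
    (∀ i, g i ∈ ops m) → (fun x => f (fun i => g i x)) ∈ ops m

/-- The value of a term. -/
def Term.eval {S : Type} {ar : S → ℕ} {n : ℕ} {A : Type} (I : ∀ s, (Fin (ar s) → A) → A)
    (x : Fin n → A) : Term ar n → A
  | .var j => x j
  | .op s ts => I s (fun j => (ts j).eval I x)

/-- The algebra with clone `C` satisfies the condition on the set `F` of tuples. -/
def SatOn {A : Type} (C : Clone A) (Γ : Cond) (F : Set (Fin Γ.n → A)) : Prop :=
  ∃ I : ∀ s, (Fin (Γ.ar s) → A) → A, (∀ s, I s ∈ C.ops (Γ.ar s)) ∧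
    ∀ p ∈ Γ.ids, ∀ x ∈ F, p.1.eval I x = p.2.eval I x

/-- The algebra with clone `C` satisfies the condition. -/
def Sat {A : Type} (C : Clone A) (Γ : Cond) : Prop := SatOn C Γ Set.univ

/-- The `k`-local-global property. -/
def LGk (Γ : Cond) (k : ℕ) : Prop :=
  ∀ (A : Type) [Nonempty A] (C : Clone A), (∃ F : Finset (Fin Γ.n → A), F.card = k) →
    (∀ F : Finset (Fin Γ.n → A), F.card = k → SatOn C Γ F) →
    ∀ F : Finset (Fin Γ.n → A), SatOn C Γ F

/-- The local-global property. -/
def LG (Γ : Cond) : Prop := ∃ k, 1 ≤ k ∧ LGk Γ k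

/-- Equivalence of strong Maltsev conditions (over all algebras). -/
def Equivalent (Γ Δ : Cond) : Prop :=
  ∀ (A : Type) [Nonempty A] (C : Clone A), Sat C Γ ↔ Sat C Δ

/-- The clone of all operations depending on at most one variable: the clone of the algebra whose
basic operations are all the unary operations (and all constants). -/
def U (A : Type) : Clone A where
  ops n := {f | (∃ (i : Fin n) (g : A → A), f = fun x => g (x i)) ∨ ∃ a : A, f = fun _ => a}
  proj n i := Or.inl ⟨i, id, rfl⟩
  comp := by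
    rintro n m f g (⟨i, h, rfl⟩ | ⟨a, rfl⟩) hg
    · rcases hg i with ⟨j, h', hh⟩ | ⟨a, ha⟩
      · refine Or.inl ⟨j, h ∘ h', ?_⟩
        funext x
        show h (g i x) = h (h' (x j))
        rw [hh]
      · refine Or.inr ⟨h a, ?_⟩
        funext x
        show h (g i x) = h a
        rw [ha]
    · exact Or.inr ⟨a, rfl⟩

/-- The clone of projections. -/
def Proj (A : Type) : Clone A where
  ops n := {f | ∃ i : Fin n, f = fun x => x i}
  proj n i := ⟨i, rfl⟩
  comp := by
    rintro n m f g ⟨i, rfl⟩ hg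
    obtain ⟨j, hj⟩ := hg i
    refine ⟨j, ?_⟩
    funext x
    show g i x = x j
    rw [hj]

/-! ### The hidden version of a condition -/

/-- Arities of the hidden version: two new unary symbols. -/
def har (Γ : Cond) : Γ.S ⊕ Bool → ℕ
  | Sum.inl s => Γ.ar s
  | Sum.inr _ => 1

/-- The term obtained by replacing each variable `x` by `h(x)`. -/
def hide (Γ : Cond) : Term Γ.ar Γ.n → Term (har Γ) (Γ.n + 1)
  | .var j => .op (Sum.inr false) (fun _ => .var j.castSucc)
  | .op s ts => .op (Sum.inl s) (fun j => hide Γ (ts j))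

/-- The identity `h(h'(x)) = x`. -/
def newId (Γ : Cond) : Term (har Γ) (Γ.n + 1) × Term (har Γ) (Γ.n + 1) :=
  (.op (Sum.inr false) (fun _ => .op (Sum.inr true) (fun _ => .var 0)), .var 0)

/-- The hidden version of a strong Maltsev condition. -/
def Hidden (Γ : Cond) : Cond where
  S := Γ.S ⊕ Bool
  finS := by
    have := Γ.finS
    infer_instance
  ar := har Γ
  n := Γ.n + 1
  ids := insert (newId Γ) ((fun p => (hide Γ p.1, hide Γ p.2)) '' Γ.ids)
  finIds := (Γ.finIds.image _).insert _

lemma eval_hide (Γ : Cond) {A : Type} (J : ∀ s, (Fin (har Γ s) → A) → A)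
    (y : Fin (Γ.n + 1) → A) (t : Term Γ.ar Γ.n) :
    (hide Γ t).eval J y = t.eval (fun s => J (Sum.inl s))
      (fun j => J (Sum.inr false) (fun _ => y j.castSucc)) := by
  induction t with
  | var j => rfl
  | op s ts ih =>
    show J (Sum.inl s) (fun j => (hide Γ (ts j)).eval J y) =
      J (Sum.inl s) (fun j => (ts j).eval _ _)
    congr 1
    funext j
    exact ih j

lemma transfer (Γ : Cond) {A : Type} (J : ∀ s, (Fin (har Γ s) → A) → A)
    (hid : ∀ p ∈ insert (newId Γ) ((fun p => (hide Γ p.1, hide Γ p.2)) '' Γ.ids),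
      ∀ y : Fin (Γ.n + 1) → A, p.1.eval J y = p.2.eval J y) (d : A)
    (q : Term Γ.ar Γ.n × Term Γ.ar Γ.n) (hq : q ∈ Γ.ids) (x : Fin Γ.n → A) :
    q.1.eval (fun s => J (Sum.inl s)) x = q.2.eval (fun s => J (Sum.inl s)) x := by
  have h1 : ∀ a : A, J (Sum.inr false) (fun _ => J (Sum.inr true) (fun _ => a)) = a := by
    intro a
    exact hid (newId Γ) (Set.mem_insert _ _) (fun _ => a)
  have h3 := hid (hide Γ q.1, hide Γ q.2) (Set.mem_insert_of_mem _ ⟨q, hq, rfl⟩)
    (Fin.snoc (fun j => J (Sum.inr true) (fun _ => x j)) d)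
  rw [eval_hide, eval_hide] at h3
  have h4 : (fun j : Fin Γ.n => J (Sum.inr false) (fun _ =>
      (Fin.snoc (fun j => J (Sum.inr true) (fun _ => x j)) d : Fin (Γ.n + 1) → A)
        j.castSucc)) = x := by
    funext j
    rw [Fin.snoc_castSucc]
    exact h1 _
  rw [h4] at h3
  exact h3

theorem equivalent_hidden (Γ : Cond) : Equivalent Γ (Hidden Γ) := by
  intro A _ C
  constructor
  · rintro ⟨I, hI, hid⟩
    let J : ∀ s, (Fin (har Γ s) → A) → A := fun s => match s with
      | Sum.inl s => I s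
      | Sum.inr _ => fun x => x (0 : Fin 1)
    refine ⟨J, ?_, ?_⟩
    · rintro (s | b)
      · exact hI s
      · exact C.proj 1 0
    · rintro p hp x -
      rcases hp with rfl | ⟨q, hq, rfl⟩
      · rfl
      · exact (eval_hide Γ J x q.1).trans ((hid q hq _ (Set.mem_univ _)).trans
          (eval_hide Γ J x q.2).symm)
  · rintro ⟨J, hJ, hid⟩
    refine ⟨fun s => J (Sum.inl s), fun s => hJ (Sum.inl s), ?_⟩
    rintro q hq x -
    obtain ⟨d⟩ := (inferInstance : Nonempty A)
    exact transfer Γ J (fun p hp y => hid p hp y (Set.mem_univ _)) d q hq x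

lemma eval_const (Γ : Cond) {A : Type} (d : A) (t : Term Γ.ar Γ.n) :
    t.eval (fun _ _ => d) (fun _ => d) = d := by
  cases t with
  | var j => rfl
  | op s ts => rfl

/-- The hidden version is satisfied on all small sets in the clones `U A`. -/
theorem satOn_hidden (Γ : Cond) (A : Type) [Fintype A] (k : ℕ) (hk : 1 ≤ k)
    (hA : (Γ.n + 2) * k ≤ Fintype.card A) (F : Finset (Fin (Γ.n + 1) → A)) (hF : F.card = k) :
    SatOn (U A) (Hidden Γ) (F : Set (Fin (Γ.n + 1) → A)) := by
  classical
  let T0 : Finset A := F.image (fun x => x 0)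
  let T : Finset A := F.biUnion (fun x => Finset.univ.image x)
  have hT0 : T0.card ≤ k := Finset.card_image_le.trans hF.le
  have hT : T.card ≤ k * (Γ.n + 1) := by
    have := Finset.card_biUnion_le_card_mul F (fun x => Finset.univ.image x) (Γ.n + 1)
      (fun x _ => Finset.card_image_le.trans (by rw [Finset.card_univ, Fintype.card_fin]))
    rwa [hF] at this
  have hle : T0.card ≤ (Finset.univ \ T).card := by
    rw [Finset.card_sdiff_of_subset (Finset.subset_univ _), Finset.card_univ]
    have : (Γ.n + 2) * k = k * (Γ.n + 1) + k := by ring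
    omega
  obtain ⟨T1, hT1, hT1c⟩ := Finset.exists_subset_card_eq hle
  have e : T0 ≃ T1 := Finset.equivOfCardEq hT1c.symm
  have hne : Nonempty A := by
    rw [← Fintype.card_pos_iff]
    have : 0 < (Γ.n + 2) * k := by positivity
    omega
  obtain ⟨d⟩ := hne
  -- the two unary operations
  let h' : A → A := fun a => if h : a ∈ T0 then (e ⟨a, h⟩ : A) else d
  let h : A → A := fun c => if hc : c ∈ T1 then (e.symm ⟨c, hc⟩ : A) else d
  let J : ∀ s, (Fin (har Γ s) → A) → A := fun s => match s with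
    | Sum.inl _ => fun _ => d
    | Sum.inr true => fun x => h' (x (0 : Fin 1))
    | Sum.inr false => fun x => h (x (0 : Fin 1))
  refine ⟨J, ?_, ?_⟩
  · rintro (s | (_ | _))
    · exact Or.inr ⟨d, rfl⟩
    · exact Or.inl ⟨(0 : Fin 1), h, rfl⟩
    · exact Or.inl ⟨(0 : Fin 1), h', rfl⟩
  · intro p hp x' hx'
    obtain ⟨x, rfl⟩ : ∃ x : Fin (Γ.n + 1) → A, x = x' := ⟨x', rfl⟩
    have hx : x ∈ F := hx'
    rcases hp with rfl | ⟨q, hq, rfl⟩
    · show h (h' (x 0)) = x 0
      have hx0 : x 0 ∈ T0 := Finset.mem_image.2 ⟨x, hx, rfl⟩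
      have e1 : h' (x 0) = (e ⟨x 0, hx0⟩ : A) := dif_pos hx0
      rw [e1]
      have e2 : h (e ⟨x 0, hx0⟩ : A) = (e.symm ⟨(e ⟨x 0, hx0⟩ : A), (e ⟨x 0, hx0⟩).2⟩ : A) :=
        dif_pos (e ⟨x 0, hx0⟩).2
      rw [e2]
      have e3 : (⟨(e ⟨x 0, hx0⟩ : A), (e ⟨x 0, hx0⟩).2⟩ : T1) = e ⟨x 0, hx0⟩ := rfl
      rw [e3, Equiv.symm_apply_apply]
    · refine (eval_hide Γ J x q.1).trans (Eq.trans ?_ (eval_hide Γ J x q.2).symm)
      have h1 : (fun j : Fin Γ.n => J (Sum.inr false) (fun _ => x j.castSucc)) =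
          fun _ => d := by
        funext j
        show h (x j.castSucc) = d
        apply dif_neg
        intro hc
        have h2 := hT1 hc
        rw [Finset.mem_sdiff] at h2
        apply h2.2
        exact Finset.mem_biUnion.2 ⟨x, hx, Finset.mem_image.2 ⟨_, Finset.mem_univ _, rfl⟩⟩
      rw [h1]
      exact (eval_const Γ d q.1).trans (eval_const Γ d q.2).symm

/-- A condition that fails in the clones `U A` of arbitrarily large finite sets is equivalent to
one without the local-global property. -/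
theorem not_LG_hidden (Γ : Cond)
    (hΓ : ∀ N : ℕ, ∃ (A : Type) (_ : Fintype A), N ≤ Fintype.card A ∧ ¬ Sat (U A) Γ) :
    ¬ LG (Hidden Γ) := by
  classical
  rintro ⟨k, hk, hLG⟩
  obtain ⟨A, _, hA, hnot⟩ := hΓ ((Γ.n + 2) * k)
  have hpos : 0 < (Γ.n + 2) * k := by positivity
  have hne : Nonempty A := by
    rw [← Fintype.card_pos_iff]
    omega
  apply hnot
  rw [equivalent_hidden Γ A (U A)]
  have h1 := hLG A (U A) (by
    have h2 : k ≤ (Finset.univ : Finset (Fin (Hidden Γ).n → A)).card := by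
      rw [Finset.card_univ, Fintype.card_fun, Fintype.card_fin]
      have h3 : Fintype.card A ≤ Fintype.card A ^ (Γ.n + 1) :=
        Nat.le_self_pow (by omega) _
      have h4 : k ≤ (Γ.n + 2) * k := Nat.le_mul_of_pos_left _ (by omega)
      exact (h4.trans hA).trans h3
    obtain ⟨F, -, hF⟩ := Finset.exists_subset_card_eq h2
    exact ⟨F, hF⟩) (fun F hF => satOn_hidden Γ A k hk hA F hF) Finset.univ
  unfold Sat
  rw [Finset.coe_univ] at h1
  exact h1

/-! ### The trivial condition -/

/-- The condition `x ≈ y`. -/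
def Triv : Cond where
  S := Empty
  finS := inferInstance
  ar := fun s => s.elim
  n := 2
  ids := {(.var 0, .var 1)}
  finIds := Set.finite_singleton _

theorem LG_triv : LG Triv := by
  classical
  refine ⟨1, le_rfl, ?_⟩
  intro A _ C _ h F
  refine ⟨fun s => s.elim, fun s => s.elim, ?_⟩
  rintro p hp x hx
  obtain ⟨I, -, hI⟩ := h {x} (Finset.card_singleton _)
  have h1 := hI p hp x (by simp)
  have h2 : p = ((.var 0, .var 1) : Term Triv.ar 2 × Term Triv.ar 2) := hp
  subst h2
  exact h1

/-! ### Idempotent conditions -/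

/-- `Γ` is idempotent: for every symbol `s` it contains the identity `s(x, …, x) ≈ x`, for some
variable `x`. -/
def Idempotent (Γ : Cond) : Prop :=
  ∀ s, ∃ j : Fin Γ.n, ((.op s (fun _ => .var j), .var j) : Term Γ.ar Γ.n × Term Γ.ar Γ.n) ∈ Γ.ids

lemma not_sat_U (Γ : Cond) (hi : Idempotent Γ) (A : Type) (hA : ∃ a b : A, a ≠ b)
    (hp : ¬ Sat (Proj A) Γ) : ¬ Sat (U A) Γ := by
  rintro ⟨I, hI, hid⟩
  apply hp
  refine ⟨I, fun s => ?_, hid⟩
  obtain ⟨j, hj⟩ := hi s
  have h1 : ∀ a : A, I s (fun _ => a) = a := fun a => hid _ hj (fun _ => a) (Set.mem_univ _)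
  rcases hI s with ⟨i, g, hg⟩ | ⟨c, hc⟩
  · refine ⟨i, ?_⟩
    have h2 : ∀ a, g a = a := by
      intro a
      have := h1 a
      rw [hg] at this
      exact this
    rw [hg]
    funext x
    exact h2 _
  · obtain ⟨a, b, hab⟩ := hA
    exfalso
    apply hab
    have ha := h1 a
    have hb := h1 b
    rw [hc] at ha hb
    rw [← ha, ← hb]

/-- **Result.** (1) There are equivalent strong Maltsev conditions one of which has the
local-global property and the other does not. (2) Every strong Maltsev condition that fails in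
`U A` for arbitrarily large finite sets `A` is equivalent to one without the local-global property.
(3) In particular this holds for every idempotent strong Maltsev condition that is not satisfied
by the projections on any finite set with at least two elements. -/
theorem result :
    (∃ Γ Δ : Cond, Equivalent Γ Δ ∧ LG Γ ∧ ¬ LG Δ) ∧
    (∀ Γ : Cond, (∀ N : ℕ, ∃ (A : Type) (_ : Fintype A), N ≤ Fintype.card A ∧ ¬ Sat (U A) Γ) →
      ∃ Δ : Cond, Equivalent Γ Δ ∧ ¬ LG Δ) ∧
    (∀ Γ : Cond, Idempotent Γ → (∀ (A : Type) [Finite A], (∃ a b : A, a ≠ b) →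
      ¬ Sat (Proj A) Γ) → ∃ Δ : Cond, Equivalent Γ Δ ∧ ¬ LG Δ) := by
  have hA : ∀ N : ℕ, ∃ a b : Fin (N + 2), a ≠ b := fun N => ⟨0, 1, by simp⟩
  refine ⟨⟨Triv, Hidden Triv, equivalent_hidden _, LG_triv, not_LG_hidden _ ?_⟩,
    fun Γ h => ⟨Hidden Γ, equivalent_hidden _, not_LG_hidden _ h⟩,
    fun Γ hi hp => ⟨Hidden Γ, equivalent_hidden _, not_LG_hidden _ ?_⟩⟩
  · intro N
    refine ⟨Fin (N + 2), inferInstance, by rw [Fintype.card_fin]; omega, ?_⟩
    rintro ⟨I, -, hI⟩
    obtain ⟨a, b, hab⟩ := hA N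
    exact hab (hI _ rfl ![a, b] (Set.mem_univ _))
  · intro N
    exact ⟨Fin (N + 2), inferInstance, by rw [Fintype.card_fin]; omega,
      not_sat_U Γ hi _ (hA N) (hp _ (hA N))⟩

end Pool.Agent.Results.MP_b44554_al.LocalGlobal
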